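import Pool.Agent.H57.CM.Targets
import Pool.Agent.H57.LH.ExRows

/-!
Board chm_modules (MP_6ab439_lc), row H0L: lexicographic products, the easy hypotheses.
-/

set_option autoImplicit false

namespace Pool.Agent.H66.CM

open Pool.Agent.H57.CM Pool.Agent.H72.CH
open Pool.Agent.H68.BP Pool.Agent.H58.SF Pool.Agent.H53.NR
open Pool.Agent.H53.GC (strOn sigOf)
open Pool.Agent.H57.AR (tp ty Ty)
open Pool.Agent.H57.LH (Hmg tp_iff tp_strOn ty_strOn)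

section

variable {τ₁ τ₂ : Sig} {V₁ V₂ : Type} {𝔹₁ : Str τ₁ V₁} {𝔹₂ : Str τ₂ V₂} {m₁ m₂ : ℕ}
  {lv₁ : V₁ → V₁ → ℕ} {lv₂ : V₂ → V₂ → ℕ}

theorem llv_eq (m : ℕ) (x y : V₁ × V₂) (h : x.1 = y.1) :
    llv m lv₁ lv₂ x y = m + lv₂ x.2 y.2 := if_pos h

theorem llv_ne (m : ℕ) (x y : V₁ × V₂) (h : x.1 ≠ y.1) :
    llv m lv₁ lv₂ x y = lv₁ x.1 y.1 := if_neg h

theorem lev_lex (h1 : Lev m₁ lv₁) (h2 : Lev m₂ lv₂) : Lev (m₁ + m₂) (llv m₁ lv₁ lv₂) := by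
  refine ⟨⟨fun x y => ?_, fun x => ?_, fun x y => ?_, fun x y z => ?_⟩, fun x y h => ?_⟩
  · by_cases h : x.1 = y.1
    · rw [llv_eq _ _ _ h]
      exact Nat.add_le_add_left (h2.pl.le _ _) _
    · rw [llv_ne _ _ _ h]
      exact (h1.pl.le _ _).trans (Nat.le_add_right _ _)
  · rw [llv_eq _ _ _ rfl, h2.pl.self]
  · by_cases h : x.1 = y.1
    · rw [llv_eq _ _ _ h, llv_eq _ _ _ h.symm, h2.pl.sym]
    · rw [llv_ne _ _ _ h, llv_ne _ _ _ (Ne.symm h), h1.pl.sym]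
  · by_cases hxy : x.1 = y.1
    · by_cases hyz : y.1 = z.1
      · rw [llv_eq _ _ _ hxy, llv_eq _ _ _ hyz, llv_eq _ _ _ (hxy.trans hyz)]
        have h := h2.pl.ult x.2 y.2 z.2
        omega
      · have hxz : x.1 ≠ z.1 := fun e => hyz (hxy.symm.trans e)
        rw [llv_ne _ _ _ hxz, llv_ne _ _ _ hyz, hxy]
        exact min_le_right _ _
    · by_cases hyz : y.1 = z.1
      · have hxz : x.1 ≠ z.1 := fun e => hxy (e.trans hyz.symm)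
        rw [llv_ne _ _ _ hxz, llv_ne _ _ _ hxy, hyz]
        exact min_le_left _ _
      · by_cases hxz : x.1 = z.1
        · rw [llv_ne _ _ _ hxy, llv_eq _ _ _ hxz]
          have h := h1.pl.le x.1 y.1
          omega
        · rw [llv_ne _ _ _ hxy, llv_ne _ _ _ hyz, llv_ne _ _ _ hxz]
          exact h1.pl.ult _ _ _
  · by_cases hxy : x.1 = y.1
    · rw [llv_eq _ _ _ hxy] at h
      have h3 : lv₂ x.2 y.2 = m₂ := by omega
      exact Prod.ext hxy (h2.eq _ _ h3)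
    · rw [llv_ne _ _ _ hxy] at h
      have h3 := h1.pl.le x.1 y.1
      exact absurd (h1.eq _ _ (by omega)) hxy

theorem one_le_card_LAr (h1 : ∀ l, 1 ≤ τ₁.ar l) (h2 : ∀ l, 1 ≤ τ₂.ar l)
    (s : Fin τ₁.m ⊕ Fin τ₂.m ⊕ Unit) : 1 ≤ Nat.card (LAr τ₁ τ₂ s) := by
  rcases s with l | l | u
  · show 1 ≤ Nat.card (Fin (τ₁.ar l))
    rw [Nat.card_fin]
    exact h1 l
  · show 1 ≤ Nat.card (Fin (τ₂.ar l))
    rw [Nat.card_fin]
    exact h2 l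
  · show 1 ≤ Nat.card (Fin 2)
    rw [Nat.card_fin]
    norm_num

theorem inv_lex (h1 : HV0 𝔹₁ m₁ lv₁) (h2 : HV0 𝔹₂ m₂ lv₂) (x y : Fin 2 → V₁ × V₂)
    (h : tp (lex 𝔹₁ 𝔹₂) x = tp (lex 𝔹₁ 𝔹₂) y) :
    llv m₁ lv₁ lv₂ (x 0) (x 1) = llv m₁ lv₁ lv₂ (y 0) (y 1) := by
  obtain ⟨he, hr⟩ := tp_strOn.1 h
  have hE : ∀ a b, (x a).1 = (x b).1 ↔ (y a).1 = (y b).1 := fun a b =>
    hr (Sum.inr (Sum.inr ())) (fun i : Fin 2 => if i = 0 then a else b)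
  by_cases hx : (x 0).1 = (x 1).1
  · have hy : (y 0).1 = (y 1).1 := (hE 0 1).1 hx
    have hxa : ∀ a b, (x a).1 = (x b).1 := by
      intro a b
      fin_cases a <;> fin_cases b
      · rfl
      · exact hx
      · exact hx.symm
      · rfl
    have hya : ∀ a b, (y a).1 = (y b).1 := fun a b => (hE a b).1 (hxa a b)
    rw [llv_eq _ _ _ hx, llv_eq _ _ _ hy]
    have h3 : tp 𝔹₂ (fun a => (x a).2) = tp 𝔹₂ (fun a => (y a).2) := by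
      refine tp_iff.2 ⟨fun a b => ⟨fun e => ?_, fun e => ?_⟩, fun l z => ?_⟩
      · exact congrArg Prod.snd ((he a b).1 (Prod.ext (hxa a b) e))
      · exact congrArg Prod.snd ((he a b).2 (Prod.ext (hya a b) e))
      · have h4 := hr (Sum.inr (Sum.inl l)) z
        exact ⟨fun e => (h4.1 ⟨fun i j => hxa _ _, e⟩).2, fun e => (h4.2 ⟨fun i j => hya _ _, e⟩).2⟩
    rw [h2.inv _ _ h3]
  · have hy : (y 0).1 ≠ (y 1).1 := fun e => hx ((hE 0 1).2 e)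
    rw [llv_ne _ _ _ hx, llv_ne _ _ _ hy]
    have h3 : tp 𝔹₁ (fun a => (x a).1) = tp 𝔹₁ (fun a => (y a).1) :=
      tp_iff.2 ⟨fun a b => hE a b, fun l z => hr (Sum.inl l) z⟩
    exact h1.inv _ _ h3

end

theorem pf_H0L (hLHM : T_LHM) : T_H0L := by
  intro τ₁ τ₂ V₁ V₂ 𝔹₁ 𝔹₂ m₁ m₂ lv₁ lv₂ h1 h2
  haveI := h1.ne
  haveI := h2.ne
  haveI := h1.cnt
  haveI := h2.cnt
  refine ⟨inferInstance, inferInstance, fun l => one_le_card_LAr h1.ar h2.ar _,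
    lev_lex h1.lev h2.lev, inv_lex h1 h2, fun x y => ?_, hLHM τ₁ τ₂ V₁ V₂ 𝔹₁ 𝔹₂ h2.ar h1.hmg h2.hmg⟩
  refine ty_strOn.2 fun s => ?_
  rcases s with l | l | u
  · exact iff_of_eq (congrFun (h1.one x.1 y.1) l)
  · exact and_congr ⟨fun _ _ _ => rfl, fun _ _ _ => rfl⟩
      (iff_of_eq (congrFun (h2.one x.2 y.2) l))
  · exact ⟨fun _ => rfl, fun _ => rfl⟩

end Pool.Agent.H66.CM
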