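import Pool.Agent.H57.CM.Targets

/-!
Board chm_modules (MP_6ab439_lc), row SPM: the metric of the shortest paths.
-/

set_option autoImplicit false

namespace Pool.Agent.H66.CM

open Pool.Agent.H57.CM Pool.Agent.H72.CH

section

variable {D X : Type} [LinearOrder D] [AddCommMonoid D]

theorem len_append (w : X → X → D) : ∀ (l : List X) (x y : X) (l' : List X),
    (x :: l).getLast? = some y → len w x (l ++ l') = len w x l + len w y l' ∧
      (x :: (l ++ l')).getLast? = (y :: l').getLast? := by
  intro l
  induction l with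
  | nil =>
    intro x y l' h
    have h1 : x = y := by simpa using h
    subst h1
    exact ⟨(zero_add _).symm, rfl⟩
  | cons z l ih =>
    intro x y l' h
    rw [List.getLast?_cons_cons] at h
    obtain ⟨h1, h2⟩ := ih z y l' h
    constructor
    · show w x z + len w z (l ++ l') = w x z + len w z l + len w y l'
      rw [h1, add_assoc]
    · rw [List.cons_append, List.getLast?_cons_cons]
      exact h2

theorem len_reverse (w : X → X → D) (hw : ∀ x y, w x y = w y x) : ∀ (l : List X) (x y : X),
    (x :: l).getLast? = some y → ∃ l' : List X, (y :: l').getLast? = some x ∧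
      len w y l' = len w x l := by
  intro l
  induction l with
  | nil =>
    intro x y h
    have h1 : x = y := by simpa using h
    subst h1
    exact ⟨[], rfl, rfl⟩
  | cons z l ih =>
    intro x y h
    rw [List.getLast?_cons_cons] at h
    obtain ⟨l', h1, h2⟩ := ih z y h
    obtain ⟨h3, h4⟩ := len_append w l' y z [x] h1
    refine ⟨l' ++ [x], h4, ?_⟩
    rw [h3, h2]
    show len w z l + (w z x + 0) = w x z + len w z l
    rw [add_zero, hw z x, add_comm]

end

theorem pf_SPM : T_SPM := by
  intro D X _ _ hDM w hw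
  haveI : Finite D := hDM.fin
  let S : X → X → Set D := fun x y => {a | ∃ l : List X, (x :: l).getLast? = some y ∧
    a = len w x l}
  have hS : ∀ x y, (S x y).Nonempty := fun x y => ⟨len w x [y], [y], rfl, rfl⟩
  have hmin : ∀ x y, ∃ a ∈ S x y, ∀ b ∈ S x y, a ≤ b := fun x y =>
    Set.exists_min_image (S x y) id (Set.toFinite _) (hS x y)
  choose d hd1 hd2 using hmin
  refine ⟨d, ⟨fun x => ?_, fun x y => ?_, fun x y z => ?_⟩, fun x y => ?_, fun x y => hd1 x y⟩
  · refine le_antisymm (hd2 x x 0 ⟨[], rfl, rfl⟩) (hDM.zero_le _)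
  · have key : ∀ x y, d x y ≤ d y x := by
      intro x y
      obtain ⟨l, h1, h2⟩ := hd1 y x
      obtain ⟨l', h3, h4⟩ := len_reverse w hw l y x h1
      exact hd2 x y _ ⟨l', h3, by rw [h4, h2]⟩
    exact le_antisymm (key x y) (key y x)
  · obtain ⟨l, h1, h2⟩ := hd1 x y
    obtain ⟨l', h3, h4⟩ := hd1 y z
    obtain ⟨h5, h6⟩ := len_append w l x y l' h1
    exact hd2 x z _ ⟨l ++ l', by rw [h6, h3], by rw [h5, h2, h4]⟩
  · exact hd2 x y _ ⟨[y], rfl, (add_zero _).symm⟩

end Pool.Agent.H66.CM
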